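import Pool.Agent.Helper395.BC.ModSpace

/-!
# MP_b814b1_ag, Q1: Butler's conjecture fails for `(g, r, d, v) = (3, 4, 9, 6)`

Let `C` be a non-hyperelliptic curve of genus `3` (for example a general curve of genus `3`). There is
an irreducible component `W` of the Brill-Noether locus `W^5_{4,9}(C)` such that the general `E ∈ W` is
globally generated with `h⁰(E) = 6`, and `M_{E,V}` is not semistable for the general `E ∈ W` and all
`6`-dimensional `V ⊆ H⁰(E)`.

The curve is given by its function field, vector bundles by local frames; see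
`Pool/Agent/Helper395/CS/Defs.lean` and `Pool/Agent/Helper395/BC/Defs.lean`. The Zariski topology of
the moduli space of stable bundles is defined in `Pool/Agent/Helper395/BC/ModDefs.lean`.
-/

namespace Pool.Agent.Results.MP_b814b1_ag.ButlerDisproof

open Pool.Agent.Helper395.CS hiding genus
open Pool.Agent.Helper395.BC

theorem result (K : Type) [Field K] [Algebra ℂ K] (hK : IsCurve K) (hg : genus K = 3)
    (hne : HasNoPencilOfDegreeTwo K) :
    ∃ W ∈ irreducibleComponents (brillNoetherLocus K 4 9 6),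
      ∃ U : Set (brillNoetherLocus K 4 9 6), IsOpen U ∧ (U ∩ W).Nonempty ∧
        ∀ x ∈ U ∩ W, ∀ E : StableBundle K 4 9, E.point = x.1 →
          IsGeneratedBy E.1 E.1.sections ∧ Module.finrank ℂ E.1.sections = 6 ∧
          ∀ (V : Submodule ℂ (Fin 4 → K)) (b : Module.Basis (Fin 6) ℂ V), V ≤ E.1.sections →
            IsGeneratedBy E.1 V ∧ (∃ M : Bundle K 2, IsKernelBundle M V b) ∧
            ∀ (m : ℕ) (M : Bundle K m), IsKernelBundle M V b → ¬ IsSemistable M := by
  have hg0 : genus K ≠ 0 := by omega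
  obtain ⟨E0, hE0d, hE0s, hE06, hE0g⟩ := exists_stable hK hg hne
  obtain ⟨W, hW, U, hU, hne', hUW⟩ := exists_component hK hg0 (by norm_num) (by norm_num) 6
    (⟨E0, hE0s, hE0d⟩ : StableBundle K 4 9) hE06 hE0g
  refine ⟨W, hW, U, hU, hne', fun x hx E hE => ?_⟩
  obtain ⟨h1, h2⟩ := hUW x hx E hE
  refine ⟨h1, h2, fun V b hV => ?_⟩
  have hfin : FiniteDimensional ℂ E.1.sections := Module.finite_of_finrank_pos (by omega)
  have hVE : V = E.1.sections := by
    apply Submodule.eq_of_le_of_finrank_le hV
    rw [h2, Module.finrank_eq_card_basis b, Fintype.card_fin]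
  have hVg : IsGeneratedBy E.1 V := by
    rw [hVE]
    exact h1
  refine ⟨hVg, exists_kernelBundle hK b hVg rfl, fun m M hM => ?_⟩
  obtain ⟨j, hj, hr, hs⟩ := id hM
  obtain ⟨h3, h4⟩ := kernel_rank_degree hK b hVg hj hr hs
  have hm : m = 2 := by omega
  subst hm
  have hd := E.2.2
  apply kernel_not_semistable hK hg0 E.2.1 (by norm_num) (by rw [hd]; norm_num) b hVg hM
  · rw [hd, hg]; norm_num
  · rw [hd, hg]; norm_num

end Pool.Agent.Results.MP_b814b1_ag.ButlerDisproof
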