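import Pool.Agent.Helper395.BC.DualM

/-!
# MP_b814b1_ag, Q1: Butler's conjecture fails for `(g, r, d, v) = (3, 4, 9, 6)`

Let `C` be a non-hyperelliptic curve of genus `3` (a general curve of genus `3`). There is a stable
bundle `E` of rank `4` and degree `9` with `h⁰(E) = 6` which is globally generated, and for *every*
stable bundle `E` of rank `4` and degree `9` and *every* `6`-dimensional space `V` of sections that
generates `E`, the kernel bundle `M_{E,V}` (of rank `2` and degree `-9`) is not semistable.

The curve is given by its function field, vector bundles by local frames; see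
`Pool/Agent/Helper395/CS/Defs.lean` and `Pool/Agent/Helper395/BC/Defs.lean`.
-/

namespace Pool.Agent.Results.MP_b814b1_ag.ButlerGenusThree

open Pool.Agent.Helper395.CS hiding genus
open Pool.Agent.Helper395.BC

theorem result (K : Type) [Field K] [Algebra ℂ K] (hK : IsCurve K) (hg : genus K = 3)
    (hne : HasNoPencilOfDegreeTwo K) :
    (∃ E : Bundle K 4, E.degree = 9 ∧ IsStable E ∧ Module.finrank ℂ E.sections = 6 ∧
      IsGeneratedBy E E.sections) ∧
    ∀ E : Bundle K 4, E.degree = 9 → IsStable E →
      ∀ (V : Submodule ℂ (Fin 4 → K)) (b : Module.Basis (Fin 6) ℂ V), IsGeneratedBy E V →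
        (∃ M : Bundle K 2, IsKernelBundle M V b) ∧
        ∀ (m : ℕ) (M : Bundle K m), IsKernelBundle M V b →
          m = 2 ∧ M.degree = -9 ∧ ¬ IsSemistable M := by
  have hg0 : genus K ≠ 0 := by omega
  refine ⟨exists_stable hK hg hne, fun E hd hE V b hV => ⟨?_, fun m M hM => ?_⟩⟩
  · exact exists_kernelBundle hK b hV rfl
  · obtain ⟨j, hj, hr, hs⟩ := id hM
    obtain ⟨h1, h2⟩ := kernel_rank_degree hK b hV hj hr hs
    have hm : m = 2 := by omega
    subst hm
    refine ⟨rfl, by rw [h2, hd], ?_⟩
    apply kernel_not_semistable hK hg0 hE (by norm_num) (by rw [hd]; norm_num) b hV hM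
    · rw [hd, hg]; norm_num
    · rw [hd, hg]; norm_num

end Pool.Agent.Results.MP_b814b1_ag.ButlerGenusThree
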